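import Pool.Agent.H29.BH.Targets2
import Pool.Agent.H61.GLB.TF
import Pool.Agent.H92.RC.ID

/-!
# Target P_IV: independence of the representatives
-/

set_option autoImplicit false

open NumberField NumberField.InfinitePlace NumberField.Units
  NumberField.Units.dirichletUnitTheorem MeasureTheory Set Filter Complex
open scoped nonZeroDivisors ENNReal

namespace Pool.Agent.H13.BH

open Pool.Agent.H25.HK Pool.Agent.H23.LB Pool.Agent.H23.LC Pool.Agent.H29.DW
open Pool.Agent.H28.RC (Rep ft idl)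
open Pool.Agent.H29.BH

section

variable {K : Type} [Field K] [NumberField K]

/-- multiplication of a fractional ideal with an element -/
noncomputable def lm (a : K) (M : FI K) : FI K := FractionalIdeal.spanSingleton (𝓞 K)⁰ a * M

lemma lm_ne {a : K} (ha : a ≠ 0) {M : FI K} (hM : M ≠ 0) : lm a M ≠ 0 :=
  mul_ne_zero (FractionalIdeal.spanSingleton_ne_zero_iff.2 ha) hM

lemma lm_lm (a b : K) (M : FI K) : lm a (lm b M) = lm (a * b) M := by
  unfold lm
  rw [← mul_assoc, FractionalIdeal.spanSingleton_mul_spanSingleton]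

lemma lm_one (M : FI K) : lm 1 M = M := by
  unfold lm
  rw [FractionalIdeal.spanSingleton_one, one_mul]

lemma mem_lm (a : K) {M : FI K} {x : K} (hx : x ∈ M) : a * x ∈ lm a M :=
  FractionalIdeal.mem_singleton_mul.2 ⟨x, hx, rfl⟩

lemma mem_lm_inv {a : K} (ha : a ≠ 0) {M : FI K} {x : K} (hx : x ∈ lm a M) : a⁻¹ * x ∈ M := by
  obtain ⟨y, hy, rfl⟩ := FractionalIdeal.mem_singleton_mul.1 hx
  rwa [← mul_assoc, inv_mul_cancel₀ ha, one_mul]

lemma idl_lm {a : K} (ha : a ≠ 0) {M : FI K} (hM : M ≠ 0) {x : K} (hx : x ∈ M) :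
    idl K (lm a M) (a * x) = idl K M x := by
  apply Pool.Agent.H92.RC.idl_unique _ (lm_ne ha hM)
  unfold lm
  rw [mul_left_comm, Pool.Agent.H92.RC.idl_mul M hM hx,
    FractionalIdeal.spanSingleton_mul_spanSingleton]

lemma exists_ne {M : FI K} (hM : M ≠ 0) : ∃ x : K, x ≠ 0 ∧ x ∈ M := by
  by_contra hcon
  push Not at hcon
  apply hM
  rw [FractionalIdeal.eq_zero_iff]
  intro x hx
  by_contra h0
  exact hcon x h0 hx

lemma ph_mul' (ν : InfinitePlace K → ℝ) {x y : K} (hx : x ≠ 0) (hy : y ≠ 0) :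
    ph ν (x * y) = ph ν x * ph ν y := by
  unfold ph
  rw [← Complex.exp_add, ← add_mul, ← Complex.ofReal_add, ← Finset.sum_add_distrib]
  congr 3
  refine Finset.sum_congr rfl fun v _ => ?_
  rw [map_mul, Real.log_mul ((map_ne_zero v).2 hx) ((map_ne_zero v).2 hy)]
  ring

lemma ph_norm (ν : InfinitePlace K → ℝ) (x : K) : ‖ph ν x‖ = 1 := by
  unfold ph
  exact Complex.norm_exp_ofReal_mul_I _

lemma cg_lm (hCG : U_CG) (hAG : U_AG) {f : Ideal (𝓞 K)} (hf : f ≠ ⊥) (χ : HG K f) {M : FI K}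
    (hM : M ≠ 0) {a : K} (ha : a ≠ 0) {x : K} (hx : x ∈ M) :
    cg χ (lm a M) (a * x) =
      (starRingEnd ℂ) (ag χ.k a) * (starRingEnd ℂ) (ph χ.ν a) * cg χ M x := by
  obtain ⟨h1, -, -, h4, -⟩ := hCG K f χ M hf hM
  obtain ⟨h1', -, -, h4', -⟩ := hCG K f χ (lm a M) hf (lm_ne ha hM)
  have key : ∀ x ∈ M, x ≠ 0 → cg χ (lm a M) (a * x) =
      (starRingEnd ℂ) (ag χ.k a) * (starRingEnd ℂ) (ph χ.ν a) * cg χ M x := by
    intro x hx hx0
    rw [h1 x hx hx0, h1' (a * x) (mem_lm a hx) (mul_ne_zero ha hx0), idl_lm ha hM hx,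
      (hAG K χ.k).1 a x ha hx0, ph_mul' χ.ν ha hx0, map_mul, map_mul]
    ring
  by_cases hx0 : x = 0
  · subst hx0
    obtain ⟨x0, h0, hm⟩ := exists_ne (mul_ne_zero (FractionalIdeal.coeIdeal_ne_zero.2 hf) hM)
    have e1 := h4 0 M.val.zero_mem x0 hm
    rw [zero_add] at e1
    have hmM : x0 ∈ M := Pool.Agent.H92.RC.coe_mul_le M f hm
    have hm' : a * x0 ∈ (f : FI K) * lm a M := by
      have : (f : FI K) * lm a M = lm a ((f : FI K) * M) := by
        unfold lm
        rw [mul_left_comm]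
      rw [this]
      exact mem_lm a hm
    have e2 := h4' 0 (lm a M).val.zero_mem (a * x0) hm'
    rw [zero_add] at e2
    rw [mul_zero, ← e1, ← e2]
    exact key x0 hmM h0
  · exact key x hx hx0

/-- the phase at the place `v` -/
noncomputable def sg0 (a : K) (v : InfinitePlace K) : ℂ := v.embedding a / ((v a : ℝ) : ℂ)

/-- the shift of the position -/
noncomputable def shy (a : K) (y : InfinitePlace K → ℝ) (v : InfinitePlace K) : ℝ :=
  y v + 2 * Real.log (v a)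

lemma sy_mul {a : K} (ha : a ≠ 0) (y : InfinitePlace K → ℝ) (x : K) (v : InfinitePlace K) :
    sy y (a * x) v = sg0 a v * sy (shy a y) x v := by
  have hpos : 0 < v a := InfinitePlace.pos_iff.2 ha
  have hne : ((v a : ℝ) : ℂ) ≠ 0 := by exact_mod_cast hpos.ne'
  have e : Real.exp (shy a y v / 2) = Real.exp (y v / 2) * v a := by
    unfold shy
    rw [add_div, Real.exp_add, mul_div_cancel_left₀ _ (two_ne_zero), Real.exp_log hpos]
  unfold sy sg0
  rw [e, map_mul]
  push_cast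
  field_simp

lemma im_emb {v : InfinitePlace K} (hv : v.IsReal) (x : K) : (v.embedding x).im = 0 := by
  rw [← Complex.conj_eq_iff_im]
  have h := InfinitePlace.isReal_iff.1 hv
  exact RingHom.congr_fun h x

lemma rl_sy (y : InfinitePlace K → ℝ) (x : K) (v : InfinitePlace K) : Rl (rv v) (sy y x v) := by
  intro h
  have hv : v.IsReal := by
    unfold rv at h
    simpa using h
  unfold sy
  rw [Complex.mul_im, im_emb hv, Complex.ofReal_im]
  simp

lemma rl_sg (a : K) (v : InfinitePlace K) : Rl (rv v) (sg0 a v) := by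
  intro h
  have hv : v.IsReal := by
    unfold rv at h
    simpa using h
  unfold sg0
  rw [Complex.div_ofReal_im, im_emb hv, zero_div]

lemma norm_sg {a : K} (ha : a ≠ 0) (v : InfinitePlace K) : ‖sg0 a v‖ = 1 := by
  have hpos : 0 < v a := InfinitePlace.pos_iff.2 ha
  unfold sg0
  rw [norm_div, Complex.norm_real, InfinitePlace.norm_embedding_eq,
    Real.norm_of_nonneg hpos.le, div_self hpos.ne']

lemma PK_sg (hPK : A_PK) {a : K} (ha : a ≠ 0) (y : InfinitePlace K → ℝ) (x : K) :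
    PK (fun v => sg0 a v * sy y x v) = PK (sy y x) := by
  unfold PK
  refine Finset.prod_congr rfl fun v _ => ?_
  rw [hPK.2.2.2.1 (rv v) (sg0 a v) (sy y x v) (rl_sg a v) (rl_sy y x v) (norm_sg ha v)]

lemma Gm_sg (k : ℤ) (μ : ℂ) {s : ℂ} (hs : ‖s‖ = 1) (w : ℂ) : Gm k μ (s * w) = s ^ k * Gm k μ w := by
  unfold Gm
  rw [norm_mul, hs, one_mul, mul_div_assoc, mul_zpow, mul_assoc]

lemma GG_sg {a : K} (ha : a ≠ 0) (k : InfinitePlace K → ℤ) (μ : InfinitePlace K → ℂ)
    (w : InfinitePlace K → ℂ) :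
    GG k μ (fun v => sg0 a v * w v) = ag k a * GG k μ w := by
  unfold GG ag
  rw [← Finset.prod_mul_distrib]
  refine Finset.prod_congr rfl fun v _ => ?_
  rw [Gm_sg _ _ (norm_sg ha v)]
  rfl

/-- the bijection `M → a M` -/
noncomputable def eqv {a : K} (ha : a ≠ 0) (M : FI K) : {x : K // x ∈ M} ≃ {x : K // x ∈ lm a M} where
  toFun x := ⟨a * x.1, mem_lm a x.2⟩
  invFun x := ⟨a⁻¹ * x.1, mem_lm_inv ha x.2⟩
  left_inv x := by
    apply Subtype.ext
    simp only
    rw [← mul_assoc, inv_mul_cancel₀ ha, one_mul]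
  right_inv x := by
    apply Subtype.ext
    simp only
    rw [← mul_assoc, mul_inv_cancel₀ ha, one_mul]

lemma SS_lm (hCG : U_CG) (hAG : U_AG) (hPK : A_PK) {f : Ideal (𝓞 K)} (hf : f ≠ ⊥) (χ : HG K f)
    {M : FI K} (hM : M ≠ 0) {a : K} (ha : a ≠ 0) (y : InfinitePlace K → ℝ)
    (μ : InfinitePlace K → ℂ) :
    ‖SS χ (lm a M) y μ‖ = ‖SS χ M (shy a y) μ‖ := by
  have h1 : SS χ (lm a M) y μ = ((starRingEnd ℂ) (ag χ.k a) * (starRingEnd ℂ) (ph χ.ν a) *
      ag χ.k a) * SS χ M (shy a y) μ := by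
    unfold SS
    rw [← (eqv ha M).tsum_eq, ← tsum_mul_left]
    refine tsum_congr fun x => ?_
    have e1 : ((eqv ha M x : {x : K // x ∈ lm a M}) : K) = a * x.1 := rfl
    have e2 : sy y (a * x.1) = fun v => sg0 a v * sy (shy a y) x.1 v := by
      funext v
      exact sy_mul ha y x.1 v
    rw [e1, cg_lm hCG hAG hf χ hM ha x.2, e2, PK_sg hPK ha, GG_sg ha]
    ring
  rw [h1, norm_mul, norm_mul, norm_mul, RCLike.norm_conj, RCLike.norm_conj,
    (hAG K χ.k).2.1 a ha, ph_norm]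
  simp

lemma log_norm {a : K} (ha : a ≠ 0) :
    ∑ v : InfinitePlace K, (v.mult : ℝ) * Real.log (v a) =
      Real.log ((|Algebra.norm ℚ a| : ℚ) : ℝ) := by
  have h := InfinitePlace.prod_eq_abs_norm a
  rw [← h, Real.log_prod fun v _ => pow_ne_zero _ ((map_ne_zero v).2 ha)]
  refine Finset.sum_congr rfl fun v _ => ?_
  rw [Real.log_pow]

open scoped Classical in
/-- the shift of the coordinates -/
noncomputable def za (a : K) : logSpace K := fun w =>
  (w.1.mult : ℝ) * (Real.log (w.1 a) -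
    Real.log ((|Algebra.norm ℚ a| : ℚ) : ℝ) / Module.finrank ℚ K)

lemma sum_mult_real : ∑ v : InfinitePlace K, (v.mult : ℝ) = Module.finrank ℚ K := by
  have := InfinitePlace.sum_mult_eq (K := K)
  exact_mod_cast this

open scoped Classical in
lemma yc_za {a : K} (ha : a ≠ 0) (v : InfinitePlace K) :
    yc K (Real.log ((|Algebra.norm ℚ a| : ℚ) : ℝ)) (za a) v = 2 * Real.log (v a) := by
  set L := Real.log ((|Algebra.norm ℚ a| : ℚ) : ℝ) with hL
  have hn : (Module.finrank ℚ K : ℝ) ≠ 0 := by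
    exact_mod_cast (Module.finrank_pos (R := ℚ) (M := K)).ne'
  have hm : (v.mult : ℝ) ≠ 0 := by exact_mod_cast v.mult_ne_zero
  have hall : ∑ w : InfinitePlace K, (w.mult : ℝ) * (Real.log (w a) - L / Module.finrank ℚ K) =
      0 := by
    simp_rw [mul_sub]
    rw [Finset.sum_sub_distrib, log_norm ha, ← Finset.sum_mul, sum_mult_real, ← hL,
      mul_div_cancel₀ _ hn, sub_self]
  unfold yc
  by_cases h : v = w₀
  · rw [dif_pos h]
    have h2 := Fintype.sum_eq_add_sum_subtype_ne (fun w : InfinitePlace K =>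
      (w.mult : ℝ) * (Real.log (w a) - L / Module.finrank ℚ K)) w₀
    rw [hall] at h2
    have h3 : ∑ w : {w : InfinitePlace K // w ≠ w₀}, za a w =
        -((v.mult : ℝ) * (Real.log (v a) - L / Module.finrank ℚ K)) := by
      rw [h]
      unfold za
      rw [← hL]
      linarith
    rw [h3]
    field_simp
    ring
  · rw [dif_neg h]
    unfold za
    rw [← hL]
    field_simp
    ring

lemma yM_lm {a : K} (ha : a ≠ 0) {M : FI K} (hM : M ≠ 0) (τ : ℝ) (z : logSpace K) :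
    shy a (yM K (lm a M) τ z) = yM K M τ (z + za a) := by
  funext v
  set L := Real.log ((|Algebra.norm ℚ a| : ℚ) : ℝ) with hL
  have hN : (FractionalIdeal.absNorm M : ℚ) ≠ 0 := by
    rw [Ne, FractionalIdeal.absNorm_eq_zero_iff]
    exact hM
  have hNa : |Algebra.norm ℚ a| ≠ 0 := by
    rw [abs_ne_zero, Algebra.norm_ne_zero_iff]
    exact ha
  have e1 : Real.log (FractionalIdeal.absNorm (lm a M) : ℝ) =
      L + Real.log (FractionalIdeal.absNorm M : ℝ) := by
    have : FractionalIdeal.absNorm (lm a M) = |Algebra.norm ℚ a| * FractionalIdeal.absNorm M := by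
      unfold lm
      rw [map_mul, FractionalIdeal.absNorm_span_singleton]
    rw [this, Rat.cast_mul, Real.log_mul (by exact_mod_cast hNa) (by exact_mod_cast hN)]
  have e2 : τ - Real.log (FractionalIdeal.absNorm M : ℝ) =
      (τ - Real.log (FractionalIdeal.absNorm (lm a M) : ℝ)) + L := by
    rw [e1]
    ring
  unfold shy yM
  rw [e2, Pool.Agent.H61.GLB.yc_add, yc_za ha]

lemma lm_unit (M : FI K) (u : (𝓞 K)ˣ) : lm ((u : 𝓞 K) : K) M = M := by
  unfold lm
  have h1 : FractionalIdeal.spanSingleton (𝓞 K)⁰ ((u : 𝓞 K) : K) = 1 := by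
    have h2 := FractionalIdeal.coeIdeal_span_singleton (S := (𝓞 K)⁰) (P := K) (u : 𝓞 K)
    rw [← h2, Ideal.span_singleton_eq_top.2 u.isUnit, FractionalIdeal.coeIdeal_top]
  rw [h1, one_mul]

lemma yM_unit (hYC : T_YC) (M : FI K) (τ : ℝ) (z : logSpace K) (u : (𝓞 K)ˣ) :
    shy ((u : 𝓞 K) : K) (yM K M τ z) = yM K M τ (z + logEmbedding K (Additive.ofMul u)) := by
  funext v
  unfold shy yM
  exact ((hYC K).2.2.1 _ z u v).symm

open scoped Classical in
lemma int_lm (hCG : U_CG) (hAG : U_AG) (hPK : A_PK) (hYC : T_YC) {f : Ideal (𝓞 K)} (hf : f ≠ ⊥)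
    (χ : HG K f) {M : FI K} (hM : M ≠ 0) {a : K} (ha : a ≠ 0) (μ : InfinitePlace K → ℂ)
    (T : Set ℝ) :
    ∫⁻ z in Fd K, ∫⁻ τ in T, ENNReal.ofReal ‖SS χ (lm a M) (yM K (lm a M) τ z) μ‖ =
      ∫⁻ z in Fd K, ∫⁻ τ in T, ENNReal.ofReal ‖SS χ M (yM K M τ z) μ‖ := by
  have h1 := Pool.Agent.H61.GLB.Fd_trans K
    (fun z => ∫⁻ τ in T, ENNReal.ofReal ‖SS χ M (yM K M τ z) μ‖) (fun z l hl => ?_) (za a)
  · rw [← h1]
    refine lintegral_congr fun z => ?_
    refine lintegral_congr fun τ => ?_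
    rw [SS_lm hCG hAG hPK hf χ hM ha, yM_lm ha hM]
  · obtain ⟨u, -, rfl⟩ := hl
    refine lintegral_congr fun τ => ?_
    have h2 := SS_lm hCG hAG hPK hf χ hM
      (a := (((Additive.toMul u : (𝓞 K)ˣ) : 𝓞 K) : K)) (by simp) (yM K M τ z) μ
    rw [lm_unit, yM_unit hYC] at h2
    rw [h2]
    rfl

/-! ### Classes -/

/-- the same class -/
def Rc (M M' : FI K) : Prop := ∃ a : K, a ≠ 0 ∧ M' = lm a M

lemma Rc.symm {M M' : FI K} (h : Rc M M') : Rc M' M := by
  obtain ⟨a, ha, rfl⟩ := h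
  exact ⟨a⁻¹, inv_ne_zero ha, by rw [lm_lm, inv_mul_cancel₀ ha, lm_one]⟩

lemma Rc.trans {M M' M'' : FI K} (h : Rc M M') (h' : Rc M' M'') : Rc M M'' := by
  obtain ⟨a, ha, rfl⟩ := h
  obtain ⟨b, hb, rfl⟩ := h'
  exact ⟨b * a, mul_ne_zero hb ha, by rw [lm_lm]⟩

lemma Rc.pri {M M' : FI K} (h : Rc M M') {I : Ideal (𝓞 K)} (hI : Pri K M I) : Pri K M' I := by
  obtain ⟨a, ha, rfl⟩ := h
  obtain ⟨h0, x, hx⟩ := hI
  refine ⟨h0, a * x, ?_⟩
  unfold lm
  rw [mul_left_comm, hx, FractionalIdeal.spanSingleton_mul_spanSingleton]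

lemma exists_pri {M : FI K} (hM : M ≠ 0) :
    ∃ (I : Ideal (𝓞 K)) (x : K), x ≠ 0 ∧ I ≠ ⊥ ∧
      (I : FI K) * M = FractionalIdeal.spanSingleton (𝓞 K)⁰ x := by
  obtain ⟨x, hx0, hx⟩ := exists_ne hM
  have h1 := Pool.Agent.H92.RC.idl_mul M hM hx
  refine ⟨idl K M x, x, hx0, ?_, h1⟩
  intro h
  rw [h, FractionalIdeal.coeIdeal_bot, zero_mul] at h1
  exact hx0 (FractionalIdeal.spanSingleton_eq_zero_iff.1 h1.symm)

lemma exists_rc {ι : Type} {M : ι → FI K} (hR : Reps K M) {M' : FI K} (hM' : M' ≠ 0) :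
    ∃ c, Rc (M c) M' := by
  obtain ⟨I, x, hx, hI, h1⟩ := exists_pri hM'
  obtain ⟨c, ⟨-, x', h2⟩, -⟩ := hR.2 I hI
  have hIc : (I : FI K) ≠ 0 := FractionalIdeal.coeIdeal_ne_zero.2 hI
  have hx' : x' ≠ 0 := by
    rintro rfl
    rw [FractionalIdeal.spanSingleton_zero] at h2
    exact mul_ne_zero hIc (hR.1 c) h2
  refine ⟨c, x / x', div_ne_zero hx hx', ?_⟩
  apply mul_left_cancel₀ hIc
  unfold lm
  rw [h1, mul_left_comm, h2, FractionalIdeal.spanSingleton_mul_spanSingleton,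
    div_mul_cancel₀ _ hx']

lemma rc_inj {ι : Type} {M : ι → FI K} (hR : Reps K M) {c c' : ι} (h : Rc (M c) (M c')) :
    c = c' := by
  obtain ⟨I, x, hx, hI, h1⟩ := exists_pri (hR.1 c)
  obtain ⟨d, -, hu⟩ := hR.2 I hI
  have h2 : Pri K (M c) I := ⟨hI, x, h1⟩
  rw [hu c h2, hu c' (h.pri h2)]

lemma exists_bij {ι ι' : Type} [Fintype ι] [Fintype ι'] {M : ι → FI K} {M' : ι' → FI K}
    (hR : Reps K M) (hR' : Reps K M') :
    ∃ e : ι' → ι, Function.Bijective e ∧ ∀ c', Rc (M (e c')) (M' c') := by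
  choose e he using fun c' => exists_rc hR (hR'.1 c')
  choose g hg using fun c => exists_rc hR' (hR.1 c)
  have hei : Function.Injective e := by
    intro c1 c2 h
    apply rc_inj hR'
    have h1 := he c1
    rw [h] at h1
    exact h1.symm.trans (he c2)
  have hgi : Function.Injective g := by
    intro c1 c2 h
    apply rc_inj hR
    have h1 := hg c1
    rw [h] at h1
    exact h1.symm.trans (hg c2)
  refine ⟨e, ?_, he⟩
  rw [Fintype.bijective_iff_injective_and_card]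
  exact ⟨hei, le_antisymm (Fintype.card_le_of_injective e hei)
    (Fintype.card_le_of_injective g hgi)⟩

end

/-- Target P_IV. -/
theorem pf_P_IV (hCG : U_CG) (hAG : U_AG) (hPK : A_PK) (hYC : T_YC) : P_IV := by
  intro K _ _ f hf χ ι ι' _ _ M M' hR hR' μ T hT
  obtain ⟨e, he, hrc⟩ := exists_bij hR hR'
  rw [← he.sum_comp]
  refine Finset.sum_congr rfl fun c' _ => ?_
  obtain ⟨a, ha, h⟩ := hrc c'
  rw [h]
  exact (int_lm hCG hAG hPK hYC hf χ (hR.1 (e c')) ha μ T).symm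

end Pool.Agent.H13.BH
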